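import Pool.Agent.N522.HT.Main

/-!
# MP_4be043_ag: Hartshorne's conjecture for hypersurfaces reduces to dimension `n = 2 i + 1`
-/

open Pool.Agent.N522.HT

/-- Fix the degree.  Q1 holds for all smooth hypersurfaces of that degree if and only if it holds
for cycles of codimension `i` on smooth hypersurfaces of dimension exactly `2 i + 1`, for all
`i ≥ 1`.  If these boundary cases hold for `1 ≤ i ≤ I`, then for all `i ≤ I` the Chow group
`CH_{n-i}(X) ⊗ ℚ` is spanned by `h^i` for smooth hypersurfaces with `n ≥ 2 i + 1`, and also for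
hypersurfaces with one ordinary double point and `n ≥ 2 i + 2`. -/
theorem Pool.Agent.Results.MP_4be043_ag.BoundaryDimension.result :
    ∀ T : Theory, Facts T →
      (Q1 T ↔ ∀ i : ℕ, 1 ≤ i → Boundary T i) ∧
      (∀ I : ℕ, (∀ i : ℕ, 1 ≤ i → i ≤ I → Boundary T i) → ∀ i : ℕ, i ≤ I →
        (∀ n : ℕ, 2 * i + 1 ≤ n → ∀ X : T.Hyp n, T.Smooth X → Spanned X i) ∧
        (∀ n : ℕ, 2 * i + 2 ≤ n → ∀ X : T.Hyp n, Spanned X i)) :=
  fun _ F => ⟨q1_iff F, fun I hB i hi => main F I hB i hi⟩
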