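import Pool.Agent.N567.HH.Main

/-!
# Hartshorne's conjecture on hypersurfaces: suspensions, power maps and pencils

Hartshorne's conjecture asserts `CH^i(X) = ℚ h^i` for all smooth complex hypersurfaces `X` of
dimension `n > 2 i` (Chow groups with rational coefficients). It is reduced here to its boundary
cases `n = 2 i + 1`, and among these to any family of cases in which `i` becomes arbitrarily large
and the degree arbitrarily divisible; it is even enough that above every smooth hypersurface `X` of
odd dimension there is one hypersurface `X'` for which the boundary case holds.

* Suspensions. Let `X` be given by `f(x) = 0` and the smooth hypersurface `Z` by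
  `f(x) + a b G(x, a, b) = 0`. The hyperplane sections `b = 0` and `a = 0` of `Z` are the cones over
  `X` with vertices `p` and `q`. The cones meet transversally in `X`, and `p` is not on the cone with
  vertex `q`. So if a cycle on `X` is mapped to its cone with vertex `p`, restricted to the cone
  with vertex `q` and projected to `X`, it comes back to itself: `CH^i(X)` is a direct summand of
  `CH^(i+1)(Z)`, with `h^i` corresponding to `h^(i+1)`, and the case `(n + 2, i + 1)` implies the
  case `(n, i)`.
* Power maps. For general coordinates the inverse image of `X` under the `k`-th power map of
  the projective space is a smooth hypersurface of degree `d k`, so the case of degree `d k` implies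
  the case of degree `d`.
* Pencils. If the intersection of a cycle of degree zero with the smooth members `Y_t` of a Lefschetz
  pencil of hyperplane sections is rationally equivalent to zero, the cycle comes from cycles on
  finitely many `Y_t`, of smaller codimension; so the cases `(n, i)` with `n > 2 i + 1` follow by
  induction from the cases `(2 j + 1, j)` with `j ≤ i`.
-/

set_option autoImplicit false

namespace Pool.Agent.Results.MP_4be043_ag.SuspensionsAndPowerMaps

open Pool.Agent.N567.HH

/-- Let `T` be the Chow groups with rational coefficients of the complex hypersurfaces.

* Fix a degree `d ≥ 2` and `i`. If `CH^i(X) = ℚ h^i` for all smooth hypersurfaces `X` of degree `d`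
  and dimension `2 i + 1`, then for all `j ≤ i` and all `n` one has `CH^j(X) = ℚ h^j` for all smooth
  hypersurfaces of degree `d` and dimension `n > 2 j`, and for all hypersurfaces of degree `d` and
  dimension `n > 2 j + 1` whose only singularities are ordinary double points.
* The following are equivalent: Hartshorne's conjecture; for every `m ≥ 1` there are a multiple `d`
  of `m` and an `i ≥ m` such that `CH^i(X) = ℚ h^i` for all smooth hypersurfaces `X` of degree `d` and
  dimension `2 i + 1`; for every smooth hypersurface `X` of odd dimension there is some smooth
  hypersurface `X'` obtained from it by suspensions and inverse images under power maps, such that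
  `CH^i(X') = ℚ h^i` for `dim X' = 2 i + 1`; Hartshorne's conjecture together with its analogue for
  hypersurfaces of dimension `n > 2 i + 1` with ordinary double points. -/
theorem result (T : ChowData) (hT : IsChow T) :
    (∀ d i : ℕ, 2 ≤ d → Hartshorne T d (2 * i + 1) i →
      ∀ j ≤ i, ∀ n : ℕ, (2 * j < n → Hartshorne T d n j) ∧
        (2 * j + 1 < n → HartshorneNodal T d n j)) ∧
    List.TFAE [∀ d n i : ℕ, 1 ≤ d → 2 * i < n → Hartshorne T d n i,
      ∀ m : ℕ, 1 ≤ m → ∃ d i : ℕ, 1 ≤ d ∧ m ∣ d ∧ m ≤ i ∧ Hartshorne T d (2 * i + 1) i,
      HartshorneAbove T,
      ∀ d n i : ℕ, 1 ≤ d → (2 * i < n → Hartshorne T d n i) ∧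
        (2 * i + 1 < n → HartshorneNodal T d n i)] :=
  ⟨fun _ _ hd h => one_degree hT hd h, all_degrees hT⟩

end Pool.Agent.Results.MP_4be043_ag.SuspensionsAndPowerMaps
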